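import Mathlib
import Pool.Agent.Results.MP_90cb67_lc.CutIsDelta
import Pool.Agent.Helper292.ForceCH

/-!
# Consistently, some external partition cut is a `δ`-set

The forcing language is the one of `Helper292.ForceCH`: a sentence is the set of the conditions
which force it; `CHHolds P` says that `ω₁` many subsets of `ℕ` are all subsets of `ℕ`.
-/

set_option autoImplicit false

namespace Pool.Agent.Results.MP_90cb67_lc.ForcedCutIsDelta

open Cardinal Pool.Agent.Helper292.ForceCH
open Pool.Agent.Results.MP_90cb67_lc.CutIsDelta (Q1Fails DominatingIsContinuum)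

/-- (1) Some forcing notion forces that `ω₁` is preserved and that the continuum hypothesis holds.
(2) The continuum hypothesis, and more generally `𝔡 = 𝔠`, implies that there are a nonprincipal
ultrafilter on `ℕ` and a partition of `ℕ` into countably many small sets such that the partition
cut is external and a `δ`-set. -/
theorem result :
    (∃ (P : Type) (_ : Preorder P), Nonempty P ∧ ∀ p : P,
      p ∈ OmegaOnePreserved P ∧ p ∈ CHHolds P) ∧
    ((ℵ₁ : Cardinal.{0}) = 𝔠 → Q1Fails) ∧ (DominatingIsContinuum → Q1Fails) := by
  refine ⟨?_, fun h => CutIsDelta.result.2 h.symm, CutIsDelta.result.1⟩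
  · obtain ⟨P, i, h1, h2⟩ := exists_forcing
    exact ⟨P, i, h1, fun p => ⟨(h2 p).1, (h2 p).2.2⟩⟩

end Pool.Agent.Results.MP_90cb67_lc.ForcedCutIsDelta
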